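import Pool.Agent.helper84.ZD.SpecA

/-! # Project zd (MP_4467b5_nt), module SYM: symmetrisation -/

set_option autoImplicit false

open Complex MeasureTheory Set

namespace Pool.Agent.ZD

open Pool.Agent.helper84.DM Pool.Agent.helper78.ED Pool.Agent.DH

theorem SYM_rho_cont (W : Finset ℝ) : Continuous (rho W) := by
  unfold rho
  fun_prop

theorem SYM_rho_neg (W : Finset ℝ) (x : ℝ) : ‖rho W (-x)‖ = ‖rho W x‖ := by
  have h : rho W (-x) = (starRingEnd ℂ) (rho W x) := by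
    unfold rho
    rw [map_sum]
    refine Finset.sum_congr rfl fun t _ => ?_
    rw [← Complex.exp_conj, map_mul, Complex.conj_I, Complex.conj_ofReal]
    congr 1
    push_cast
    ring
  rw [h, RCLike.norm_conj]

theorem SYM_kap_nonneg (x : ℝ) : 0 ≤ kap x := by
  unfold kap
  positivity

theorem SYM_kap_cont : Continuous kap := by
  unfold kap
  refine Continuous.div continuous_const (by fun_prop) fun x => ?_
  positivity

theorem SYM_kap_scale (x y : ℝ) (hx : |x| ≤ 5) :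
    kap (Real.exp (-x) * y) ≤ Real.exp 10 * kap y := by
  unfold kap
  rw [mul_one_div, div_le_div_iff₀ (by positivity) (by positivity), one_mul, mul_add, mul_one,
    mul_pow, ← mul_assoc]
  have hx' := abs_le.1 hx
  have h1 : 1 ≤ Real.exp 10 := Real.one_le_exp (by norm_num)
  have h2 : 1 ≤ Real.exp 10 * Real.exp (-x) ^ 2 := by
    rw [← Real.exp_nat_mul, ← Real.exp_add]
    apply Real.one_le_exp
    push_cast
    linarith
  nlinarith [sq_nonneg y, mul_le_mul_of_nonneg_right h2 (sq_nonneg y)]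

theorem SYM_amgm (p q r : ℝ) (hp : 0 ≤ p) (hq : 0 ≤ q) (hr : 0 ≤ r) :
    p * q * r ≤ p ^ (3 / 2 : ℝ) * q ^ (3 / 2 : ℝ) + q ^ (3 / 2 : ℝ) * r ^ (3 / 2 : ℝ) +
      p ^ (3 / 2 : ℝ) * r ^ (3 / 2 : ℝ) := by
  have key : ∀ s : ℝ, 0 ≤ s → s ^ (3 / 2 : ℝ) = (√s) ^ 3 := by
    intro s hs
    rw [Real.sqrt_eq_rpow, ← Real.rpow_natCast, ← Real.rpow_mul hs]
    norm_num
  rw [key p hp, key q hq, key r hr]
  obtain ⟨P, hP⟩ : ∃ P, P = √p := ⟨_, rfl⟩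
  obtain ⟨Q, hQ⟩ : ∃ P, P = √q := ⟨_, rfl⟩
  obtain ⟨R, hR⟩ : ∃ P, P = √r := ⟨_, rfl⟩
  have hP0 : 0 ≤ P := hP ▸ Real.sqrt_nonneg _
  have hQ0 : 0 ≤ Q := hQ ▸ Real.sqrt_nonneg _
  have hR0 : 0 ≤ R := hR ▸ Real.sqrt_nonneg _
  have e1 : p = P ^ 2 := by rw [hP, Real.sq_sqrt hp]
  have e2 : q = Q ^ 2 := by rw [hQ, Real.sq_sqrt hq]
  have e3 : r = R ^ 2 := by rw [hR, Real.sq_sqrt hr]
  rw [← hP, ← hQ, ← hR, e1, e2, e3]
  have h4 : 0 ≤ P * Q := mul_nonneg hP0 hQ0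
  have h5 : 0 ≤ Q * R := mul_nonneg hQ0 hR0
  have h6 : 0 ≤ P * R := mul_nonneg hP0 hR0
  have h7 : 0 ≤ (P * Q + Q * R + P * R) *
      ((P * Q - Q * R) ^ 2 + (Q * R - P * R) ^ 2 + (P * Q - P * R) ^ 2) := by positivity
  have h8 : 0 ≤ (P * Q) ^ 3 + (Q * R) ^ 3 + (P * R) ^ 3 := by positivity
  nlinarith

/-- The box. -/
def SYM_B : Set (ℝ × ℝ) := Icc (-5 : ℝ) 5 ×ˢ Icc (-5 : ℝ) 5

theorem SYM_B_compact : IsCompact SYM_B := isCompact_Icc.prod isCompact_Icc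

theorem SYM_B_meas : MeasurableSet SYM_B := measurableSet_Icc.prod measurableSet_Icc

theorem SYM_iter (F : ℝ → ℝ → ℝ) (hF : IntegrableOn (fun z : ℝ × ℝ => F z.1 z.2) SYM_B) :
    ∫ a in (-5 : ℝ)..5, ∫ b in (-5 : ℝ)..5, F a b = ∫ z in SYM_B, F z.1 z.2 := by
  have h5 : (-5 : ℝ) ≤ 5 := by norm_num
  rw [intervalIntegral.integral_of_le h5, ← integral_Icc_eq_integral_Ioc]
  have h : ∀ a : ℝ, ∫ b in (-5 : ℝ)..5, F a b = ∫ b in Icc (-5 : ℝ) 5, F a b := fun a => by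
    rw [intervalIntegral.integral_of_le h5, ← integral_Icc_eq_integral_Ioc]
  simp_rw [h]
  exact (setIntegral_prod (fun z : ℝ × ℝ => F z.1 z.2) hF).symm

/-- The substitution. -/
def SYM_h : ℝ × ℝ ≃ₜ ℝ × ℝ where
  toFun z := (z.1 - z.2, -z.2)
  invFun z := (z.1 - z.2, -z.2)
  left_inv z := by simp
  right_inv z := by simp
  continuous_toFun := by fun_prop
  continuous_invFun := by fun_prop

theorem SYM_h_mp : MeasurePreserving (SYM_h : ℝ × ℝ → ℝ × ℝ) volume volume := by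
  have h1 : MeasurePreserving (fun z : ℝ × ℝ => (z.1 - z.2, z.2)) (volume.prod volume)
      (volume.prod volume) := measurePreserving_sub_prod volume volume
  have h2 : MeasurePreserving (Prod.map id (fun x : ℝ => -x) : ℝ × ℝ → ℝ × ℝ)
      (volume.prod volume) (volume.prod volume) :=
    (MeasurePreserving.id volume).prod (Measure.measurePreserving_neg volume)
  exact h2.comp h1

theorem SYM_s_mp : MeasurePreserving (Prod.swap ∘ SYM_h : ℝ × ℝ → ℝ × ℝ) volume volume := by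
  have h1 : MeasurePreserving (Prod.swap : ℝ × ℝ → ℝ × ℝ) (volume.prod volume)
      (volume.prod volume) := Measure.measurePreserving_swap
  exact h1.comp SYM_h_mp

theorem SYM_s_me : MeasurableEmbedding (Prod.swap ∘ SYM_h : ℝ × ℝ → ℝ × ℝ) :=
  (Homeomorph.prodComm ℝ ℝ).measurableEmbedding.comp SYM_h.measurableEmbedding

/-- Change of variables and comparison. -/
theorem SYM_change (Φ : ℝ × ℝ → ℝ × ℝ) (hmp : MeasurePreserving Φ volume volume)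
    (hme : MeasurableEmbedding Φ) (hc : Continuous Φ) (S : Set (ℝ × ℝ)) (hS : MeasurableSet S)
    (f g : ℝ × ℝ → ℝ) (hf : Continuous f) (hg : Continuous g) (hg0 : ∀ z, 0 ≤ g z) (c : ℝ)
    (hc0 : 0 ≤ c) (hsub : Φ ⁻¹' S ⊆ SYM_B) (hfg : ∀ z ∈ SYM_B, f (Φ z) ≤ c * g z) :
    ∫ z in S, f z ≤ c * ∫ z in SYM_B, g z := by
  rw [← hmp.setIntegral_preimage_emb hme f S, ← integral_const_mul]
  have hgi : IntegrableOn (fun z => c * g z) SYM_B :=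
    (by fun_prop : Continuous (fun z => c * g z)).continuousOn.integrableOn_compact SYM_B_compact
  have hfi : IntegrableOn (fun z => f (Φ z)) SYM_B :=
    (hf.comp hc).continuousOn.integrableOn_compact SYM_B_compact
  have hm : MeasurableSet (Φ ⁻¹' S) := hmp.measurable hS
  calc ∫ z in Φ ⁻¹' S, f (Φ z) ≤ ∫ z in Φ ⁻¹' S, c * g z :=
        setIntegral_mono_on (hfi.mono_set hsub) (hgi.mono_set hsub) hm
          fun z hz => hfg z (hsub hz)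
    _ ≤ ∫ z in SYM_B, c * g z := by
        refine setIntegral_mono_set hgi ?_ (Filter.Eventually.of_forall hsub)
        exact Filter.Eventually.of_forall fun z => mul_nonneg hc0 (hg0 z)

/-- **SYM**. -/
theorem SYM : SYM_stmt := by
  intro W X m₁ m₂ m₃ hX
  have hr := SYM_rho_cont W
  have hk := SYM_kap_cont
  have h32 : (0 : ℝ) ≤ 3 / 2 := by norm_num
  -- the functions
  obtain ⟨K, hK⟩ : ∃ K : ℤ → ℤ → ℤ → ℝ × ℝ → ℝ, ∀ l₁ l₂ l₃ z, K l₁ l₂ l₃ z =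
      kap (X * ((l₁ : ℝ) * Real.exp z.1 + (l₂ : ℝ) * Real.exp z.2 + l₃)) := ⟨_, fun _ _ _ _ => rfl⟩
  have hKc : ∀ l₁ l₂ l₃, Continuous (K l₁ l₂ l₃) := fun l₁ l₂ l₃ => by
    have : K l₁ l₂ l₃ = fun z : ℝ × ℝ =>
      kap (X * ((l₁ : ℝ) * Real.exp z.1 + (l₂ : ℝ) * Real.exp z.2 + l₃)) := funext (hK l₁ l₂ l₃)
    rw [this]
    fun_prop
  have hK0 : ∀ l₁ l₂ l₃ z, 0 ≤ K l₁ l₂ l₃ z := fun l₁ l₂ l₃ z => by
    rw [hK]
    exact SYM_kap_nonneg _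
  obtain ⟨G, hG⟩ : ∃ G : ℤ → ℤ → ℤ → ℝ × ℝ → ℝ, ∀ l₁ l₂ l₃ z, G l₁ l₂ l₃ z =
      ‖rho W z.1‖ ^ (3 / 2 : ℝ) * ‖rho W z.2‖ ^ (3 / 2 : ℝ) * K l₁ l₂ l₃ z :=
    ⟨_, fun _ _ _ _ => rfl⟩
  have hn1 : Continuous (fun z : ℝ × ℝ => ‖rho W z.1‖ ^ (3 / 2 : ℝ)) :=
    (hr.comp continuous_fst).norm.rpow_const fun _ => Or.inr h32
  have hn2 : Continuous (fun z : ℝ × ℝ => ‖rho W z.2‖ ^ (3 / 2 : ℝ)) :=
    (hr.comp continuous_snd).norm.rpow_const fun _ => Or.inr h32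
  have hn3 : Continuous (fun z : ℝ × ℝ => ‖rho W (z.1 - z.2)‖ ^ (3 / 2 : ℝ)) :=
    (hr.comp (continuous_fst.sub continuous_snd)).norm.rpow_const fun _ => Or.inr h32
  have hGc : ∀ l₁ l₂ l₃, Continuous (G l₁ l₂ l₃) := fun l₁ l₂ l₃ => by
    have : G l₁ l₂ l₃ = fun z : ℝ × ℝ =>
      ‖rho W z.1‖ ^ (3 / 2 : ℝ) * ‖rho W z.2‖ ^ (3 / 2 : ℝ) * K l₁ l₂ l₃ z :=
      funext (hG l₁ l₂ l₃)
    rw [this]
    exact (hn1.mul hn2).mul (hKc _ _ _)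
  have hG0 : ∀ l₁ l₂ l₃ z, 0 ≤ G l₁ l₂ l₃ z := fun l₁ l₂ l₃ z => by
    rw [hG]
    exact mul_nonneg (by positivity) (hK0 _ _ _ _)
  have hJ : ∀ l₁ l₂ l₃, JJ W X l₁ l₂ l₃ = ∫ z in SYM_B, G l₁ l₂ l₃ z := fun l₁ l₂ l₃ => by
    unfold JJ
    rw [SYM_iter]
    · refine setIntegral_congr_fun SYM_B_meas fun z _ => ?_
      simp only [hG, hK]
    · have := (hGc l₁ l₂ l₃).continuousOn.integrableOn_compact SYM_B_compact (μ := volume)
      refine this.congr_fun (fun z _ => ?_) SYM_B_meas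
      simp only [hG, hK]
  -- the hexagon
  obtain ⟨H, hH⟩ : ∃ H : Set (ℝ × ℝ), H = {z | |z.1 - z.2| ≤ 5} := ⟨_, rfl⟩
  have hHm : MeasurableSet H := by
    rw [hH]
    exact (isClosed_le (by fun_prop) continuous_const).measurableSet
  obtain ⟨f, hf⟩ : ∃ f : ℝ × ℝ → ℝ, ∀ z, f z =
      ‖rho W z.1‖ * ‖rho W z.2‖ * ‖rho W (z.1 - z.2)‖ * K m₁ m₂ m₃ z := ⟨_, fun _ => rfl⟩
  have hfc : Continuous f := by
    have : f = fun z : ℝ × ℝ =>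
      ‖rho W z.1‖ * ‖rho W z.2‖ * ‖rho W (z.1 - z.2)‖ * K m₁ m₂ m₃ z := funext hf
    rw [this]
    exact (((hr.comp continuous_fst).norm.mul (hr.comp continuous_snd).norm).mul
      (hr.comp (continuous_fst.sub continuous_snd)).norm).mul (hKc _ _ _)
  have hind : (fun z : ℝ × ℝ => (if |z.1 - z.2| ≤ 5 then
      ‖rho W z.1‖ * ‖rho W z.2‖ * ‖rho W (z.1 - z.2)‖ *
      kap (X * ((m₁ : ℝ) * Real.exp z.1 + (m₂ : ℝ) * Real.exp z.2 + m₃)) else 0)) =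
      H.indicator f := by
    funext z
    by_cases hz : |z.1 - z.2| ≤ 5
    · rw [if_pos hz, Set.indicator_of_mem (by rw [hH]; exact hz), hf, hK]
    · rw [if_neg hz, Set.indicator_of_notMem (by rw [hH]; exact hz)]
  have hfi : IntegrableOn f SYM_B := hfc.continuousOn.integrableOn_compact SYM_B_compact
  rw [SYM_iter (fun a b => if |a - b| ≤ 5 then
    ‖rho W a‖ * ‖rho W b‖ * ‖rho W (a - b)‖ *
      kap (X * ((m₁ : ℝ) * Real.exp a + (m₂ : ℝ) * Real.exp b + m₃)) else 0)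
    (by rw [hind]; exact hfi.indicator hHm)]
  rw [hind, setIntegral_indicator hHm]
  -- the three functions
  obtain ⟨f₂, hf₂⟩ : ∃ f : ℝ × ℝ → ℝ, ∀ z, f z =
      ‖rho W z.2‖ ^ (3 / 2 : ℝ) * ‖rho W (z.1 - z.2)‖ ^ (3 / 2 : ℝ) * K m₁ m₂ m₃ z :=
    ⟨_, fun _ => rfl⟩
  obtain ⟨f₃, hf₃⟩ : ∃ f : ℝ × ℝ → ℝ, ∀ z, f z =
      ‖rho W z.1‖ ^ (3 / 2 : ℝ) * ‖rho W (z.1 - z.2)‖ ^ (3 / 2 : ℝ) * K m₁ m₂ m₃ z :=
    ⟨_, fun _ => rfl⟩
  have hf₂c : Continuous f₂ := by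
    rw [show f₂ = fun z : ℝ × ℝ => ‖rho W z.2‖ ^ (3 / 2 : ℝ) *
      ‖rho W (z.1 - z.2)‖ ^ (3 / 2 : ℝ) * K m₁ m₂ m₃ z from funext hf₂]
    exact (hn2.mul hn3).mul (hKc _ _ _)
  have hf₃c : Continuous f₃ := by
    rw [show f₃ = fun z : ℝ × ℝ => ‖rho W z.1‖ ^ (3 / 2 : ℝ) *
      ‖rho W (z.1 - z.2)‖ ^ (3 / 2 : ℝ) * K m₁ m₂ m₃ z from funext hf₃]
    exact (hn1.mul hn3).mul (hKc _ _ _)
  have hint : ∀ g : ℝ × ℝ → ℝ, Continuous g → IntegrableOn g (SYM_B ∩ H) := fun g hg =>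
    (hg.continuousOn.integrableOn_compact SYM_B_compact).mono_set inter_subset_left
  have hle : ∫ z in SYM_B ∩ H, f z ≤
      ∫ z in SYM_B ∩ H, (G m₁ m₂ m₃ z + f₂ z + f₃ z) := by
    refine setIntegral_mono_on (hint f hfc)
      (hint (fun z => G m₁ m₂ m₃ z + f₂ z + f₃ z) (((hGc _ _ _).add hf₂c).add hf₃c))
      (SYM_B_meas.inter hHm) fun z _ => ?_
    have h := SYM_amgm ‖rho W z.1‖ ‖rho W z.2‖ ‖rho W (z.1 - z.2)‖ (norm_nonneg _)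
      (norm_nonneg _) (norm_nonneg _)
    have h' := mul_le_mul_of_nonneg_right h (hK0 m₁ m₂ m₃ z)
    rw [hf, hG, hf₂, hf₃]
    linarith
  have hadd : ∫ z in SYM_B ∩ H, (G m₁ m₂ m₃ z + f₂ z + f₃ z) =
      (∫ z in SYM_B ∩ H, G m₁ m₂ m₃ z) + (∫ z in SYM_B ∩ H, f₂ z) +
        ∫ z in SYM_B ∩ H, f₃ z := by
    have e1 : ∫ z in SYM_B ∩ H, (G m₁ m₂ m₃ z + f₂ z + f₃ z) =
        (∫ z in SYM_B ∩ H, (G m₁ m₂ m₃ z + f₂ z)) + ∫ z in SYM_B ∩ H, f₃ z :=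
      integral_add (hint (fun z => G m₁ m₂ m₃ z + f₂ z) ((hGc _ _ _).add hf₂c)) (hint _ hf₃c)
    rw [e1, integral_add (hint _ (hGc _ _ _)) (hint _ hf₂c)]
  have he10 : (1 : ℝ) ≤ Real.exp 10 := Real.one_le_exp (by norm_num)
  -- first
  have t1 : ∫ z in SYM_B ∩ H, G m₁ m₂ m₃ z ≤ Real.exp 10 * JJ W X m₁ m₂ m₃ := by
    rw [hJ]
    have h1 : ∫ z in SYM_B ∩ H, G m₁ m₂ m₃ z ≤ ∫ z in SYM_B, G m₁ m₂ m₃ z :=
      setIntegral_mono_set ((hGc _ _ _).continuousOn.integrableOn_compact SYM_B_compact)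
        (Filter.Eventually.of_forall fun z => hG0 _ _ _ z)
        (Filter.Eventually.of_forall (fun z hz => hz.1))
    have h2 : 0 ≤ ∫ z in SYM_B, G m₁ m₂ m₃ z := integral_nonneg fun z => hG0 _ _ _ z
    nlinarith
  -- the other two
  have t2 : ∫ z in SYM_B ∩ H, f₂ z ≤ Real.exp 10 * JJ W X m₁ m₃ m₂ := by
    rw [hJ]
    refine SYM_change SYM_h SYM_h_mp SYM_h.measurableEmbedding SYM_h.continuous (SYM_B ∩ H)
      (SYM_B_meas.inter hHm) f₂ _ hf₂c (hGc m₁ m₃ m₂) (hG0 _ _ _) _ (by positivity) ?_ ?_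
    · rintro ⟨w, x⟩ ⟨hz, hz'⟩
      rw [hH] at hz'
      have h1 : |w - x - -x| ≤ 5 := hz'
      have h2 : -x ∈ Icc (-5 : ℝ) 5 := hz.2
      rw [show w - x - -x = w by ring] at h1
      exact ⟨abs_le.1 h1, by constructor <;> linarith [h2.1, h2.2]⟩
    · rintro ⟨w, x⟩ ⟨hw, hx⟩
      have hx5 : |x| ≤ 5 := abs_le.2 hx
      rw [hf₂, hG, hK, hK]
      change ‖rho W (-x)‖ ^ (3 / 2 : ℝ) * ‖rho W (w - x - -x)‖ ^ (3 / 2 : ℝ) *
        kap (X * ((m₁ : ℝ) * Real.exp (w - x) + (m₂ : ℝ) * Real.exp (-x) + m₃)) ≤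
        Real.exp 10 * (‖rho W w‖ ^ (3 / 2 : ℝ) * ‖rho W x‖ ^ (3 / 2 : ℝ) *
        kap (X * ((m₁ : ℝ) * Real.exp w + (m₃ : ℝ) * Real.exp x + m₂)))
      have e1 : X * ((m₁ : ℝ) * Real.exp (w - x) + (m₂ : ℝ) * Real.exp (-x) + m₃) =
          Real.exp (-x) * (X * ((m₁ : ℝ) * Real.exp w + (m₃ : ℝ) * Real.exp x + m₂)) := by
        have : Real.exp (-x) * Real.exp x = 1 := by rw [← Real.exp_add]; simp
        rw [sub_eq_add_neg, Real.exp_add]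
        linear_combination (-(X * (m₃ : ℝ))) * this
      rw [SYM_rho_neg, show w - x - -x = w by ring, e1]
      have h3 := SYM_kap_scale x
        (X * ((m₁ : ℝ) * Real.exp w + (m₃ : ℝ) * Real.exp x + m₂)) hx5
      have h4 := mul_le_mul_of_nonneg_left h3
        (by positivity : 0 ≤ ‖rho W w‖ ^ (3 / 2 : ℝ) * ‖rho W x‖ ^ (3 / 2 : ℝ))
      linarith
  have t3 : ∫ z in SYM_B ∩ H, f₃ z ≤ Real.exp 10 * JJ W X m₂ m₃ m₁ := by
    rw [hJ]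
    refine SYM_change (Prod.swap ∘ SYM_h) SYM_s_mp SYM_s_me
      (continuous_swap.comp SYM_h.continuous) (SYM_B ∩ H)
      (SYM_B_meas.inter hHm) f₃ _ hf₃c (hGc m₂ m₃ m₁) (hG0 _ _ _) _ (by positivity) ?_ ?_
    · rintro ⟨w, x⟩ ⟨hz, hz'⟩
      rw [hH] at hz'
      have h1 : |-x - (w - x)| ≤ 5 := hz'
      have h2 : -x ∈ Icc (-5 : ℝ) 5 := hz.1
      rw [show -x - (w - x) = -w by ring, abs_neg] at h1
      exact ⟨abs_le.1 h1, by constructor <;> linarith [h2.1, h2.2]⟩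
    · rintro ⟨w, x⟩ ⟨hw, hx⟩
      have hx5 : |x| ≤ 5 := abs_le.2 hx
      rw [hf₃, hG, hK, hK]
      change ‖rho W (-x)‖ ^ (3 / 2 : ℝ) * ‖rho W (-x - (w - x))‖ ^ (3 / 2 : ℝ) *
        kap (X * ((m₁ : ℝ) * Real.exp (-x) + (m₂ : ℝ) * Real.exp (w - x) + m₃)) ≤
        Real.exp 10 * (‖rho W w‖ ^ (3 / 2 : ℝ) * ‖rho W x‖ ^ (3 / 2 : ℝ) *
        kap (X * ((m₂ : ℝ) * Real.exp w + (m₃ : ℝ) * Real.exp x + m₁)))
      have e1 : X * ((m₁ : ℝ) * Real.exp (-x) + (m₂ : ℝ) * Real.exp (w - x) + m₃) =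
          Real.exp (-x) * (X * ((m₂ : ℝ) * Real.exp w + (m₃ : ℝ) * Real.exp x + m₁)) := by
        have : Real.exp (-x) * Real.exp x = 1 := by rw [← Real.exp_add]; simp
        rw [sub_eq_add_neg, Real.exp_add]
        linear_combination (-(X * (m₃ : ℝ))) * this
      rw [SYM_rho_neg, show -x - (w - x) = -w by ring, SYM_rho_neg, e1]
      have h3 := SYM_kap_scale x
        (X * ((m₂ : ℝ) * Real.exp w + (m₃ : ℝ) * Real.exp x + m₁)) hx5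
      have h4 := mul_le_mul_of_nonneg_left h3
        (by positivity : 0 ≤ ‖rho W w‖ ^ (3 / 2 : ℝ) * ‖rho W x‖ ^ (3 / 2 : ℝ))
      linarith
  rw [hadd] at hle
  linarith

end Pool.Agent.ZD
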